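import Pool.Agent.Helper43_HT.Final

set_option autoImplicit false

/-!
# Knotoids of height at most two

All definitions are in `Pool/Agent/Helper43_HT/Defs.lean` and in the starting file
`Pool/Agent/H891R2/HO/Defs.lean`.  For a diagram of a knotoid `K` in the sphere whose endpoints can be joined by
a path which crosses the diagram in two points:

* `fK`: the normalised bracket `f(K)` of the knotoid;
* `fOver`, `fUnder`: the normalised brackets (Jones polynomials in the variable `A`) of the two knots which are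
  obtained from `K` by joining the endpoints by the path above, respectively below, the two strands;
* `idx`: the number `m`, `0` if the two strands cross the path in opposite directions and `± 2` otherwise;
* `fSum = A^(3 m) f(K_over) + A^(-3 m) f(K_under)`;
* `fS`: the bracket of the saddle link (the endpoints are joined along the path, and the two strands are cut and
  joined at both sides of the path), normalised by the writhe of `K`.
-/

namespace Pool.Agent.Results.MP_79b4ff_gt.HeightTwo

open LaurentPolynomial Pool.Agent.H891R2.HO Pool.Agent.Helper43_HT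

/-- Let `K` be a knotoid diagram in the sphere whose endpoints can be joined by a path crossing it in two
points.

1. `m` is `0`, `2` or `-2`.  Let `p` and `q` be the parts of `f(K)` with the exponents congruent to `m` and
   to `m + 2` modulo `4`.  Then `f(K) = p + q`, and
   `A^(3m) f(K_over) + A^(-3m) f(K_under) = 2 p + (A^6 + A^(-6)) q`, `fS = (-A^2 - A^(-2)) p + q`.
2. `f(K) = 1` if and only if `A^(3m) f(K_over) + A^(-3m) f(K_under) = A^(3m) + A^(-3m)` and the saddle link has
   the bracket of the trivial link with two components (`m = 0`) or of the trivial knot (`m = ± 2`), up to the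
   normalisation.
3. If `f(K) = 1` then `f(K_over) = 1` if and only if `f(K_under) = 1`.
4. For two such diagrams `K`, `K'` with `m' ≡ m` modulo `4`: `f(K) = f(K')` if and only if the sums of 1. and
   the normalised brackets of the saddle links agree. -/
theorem result :
    (∀ (k : ℕ) (G : Shadow k) (w : Fin k → Bool) (o : Fin k × Fin 4 → Bool) (i₁ i₂ : Fin k),
      IsOverClosure G w o i₁ i₂ →
      (idx w o i₁ i₂ = 0 ∨ idx w o i₁ i₂ = 2 ∨ idx w o i₁ i₂ = -2) ∧
      (∃ p q : ℤ[T;T⁻¹], fK G w o i₁ i₂ = p + q ∧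
        (∀ j, p.coeff j ≠ 0 → (4 : ℤ) ∣ j - idx w o i₁ i₂) ∧
        (∀ j, q.coeff j ≠ 0 → (4 : ℤ) ∣ j - (idx w o i₁ i₂ + 2)) ∧
        fSum G w o i₁ i₂ = 2 * p + (T 6 + T (-6)) * q ∧
        fS G w o i₁ i₂ = (-T 2 - T (-2)) * p + q) ∧
      (fK G w o i₁ i₂ = 1 ↔
        (fSum G w o i₁ i₂ = T (3 * idx w o i₁ i₂) + T (-(3 * idx w o i₁ i₂)) ∧
          fS G w o i₁ i₂ = if idx w o i₁ i₂ = 0 then -T 2 - T (-2) else 1)) ∧
      (fK G w o i₁ i₂ = 1 → (fOver G w o = 1 ↔ fUnder G w o i₁ i₂ = 1))) ∧
    (∀ (k k' : ℕ) (G : Shadow k) (w : Fin k → Bool) (o : Fin k × Fin 4 → Bool) (i₁ i₂ : Fin k)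
      (G' : Shadow k') (w' : Fin k' → Bool) (o' : Fin k' × Fin 4 → Bool) (i₁' i₂' : Fin k'),
      IsOverClosure G w o i₁ i₂ → IsOverClosure G' w' o' i₁' i₂' →
      (4 : ℤ) ∣ idx w' o' i₁' i₂' - idx w o i₁ i₂ →
      (fK G w o i₁ i₂ = fK G' w' o' i₁' i₂' ↔
        (fSum G w o i₁ i₂ = fSum G' w' o' i₁' i₂' ∧ fS G w o i₁ i₂ = fS G' w' o' i₁' i₂'))) := by
  refine ⟨?_, ?_⟩
  · intro k G w o i₁ i₂ h
    refine ⟨idx_cases w o i₁ i₂, main G w o i₁ i₂ h, one G w o i₁ i₂ h, ?_⟩
    intro hf
    exact rel_iff G w o i₁ i₂ ((one G w o i₁ i₂ h).1 hf).1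
  · intro k k' G w o i₁ i₂ G' w' o' i₁' i₂' h h' hd
    exact two G w o i₁ i₂ h G' w' o' i₁' i₂' h' hd

end Pool.Agent.Results.MP_79b4ff_gt.HeightTwo
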