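import Pool.Agent.Helper52_KD.Fin

/-!
# Proper knotoids whose normalised bracket is congruent to the one of the trivial knotoid

Diagrams (starting library `Pool.Agent.H891R2.Jones.Diagram`): `Diagram P` (oriented diagrams with marked
points `P`), `Diagram.fPoly` (the normalised bracket `(-A^{-3})^{w(D)} ⟨D⟩`, `A = T 1`, circles and
intervals are counted), `Outer m` (the part of an oriented diagram outside a box through which `m`
strands run).  `IsKnotoid D` (starting library `Pool.Agent.H832R3.TW.E`): the pieces of `D` form one
oriented interval, running from a marked point `tail` to a different marked point `head`, and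
(possibly) oriented closed curves.

Braid words (starting library `Pool.Agent.W639.RB.Defs`, `Pool.Agent.Y463.SK.Defs`):
`Letter m = Bool × Fin (m - 1)` (the letters `σ_i^{±1}`, `0 ≤ i < m - 1`; `(true, i)` is `σ_i`),
`dia O w` (the diagram with the braid word `w` in the box of `O`), `permW` (the permutation of a braid
word), `IsPure` (the permutation is trivial).

`snail : Outer 4` (`Pool.Agent.Helper52_KD.Defs`): the upper ends of the strands `0`, `2`, `3` of the box
are joined to the lower ends of the strands `1`, `2`, `3` by nested arcs without crossings; the lower end
of the strand `0` is the tail and the upper end of the strand `1` is the head.  So `dia snail w` is a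
planar diagram; the closed curves are absent if `permW w * swap 0 1` has a single cycle (the curve which
arises from joining the head to the tail runs once through all four strands).

`Pool.Agent.Helper52_CV.Defs`: `expSum` (the exponent sum of a braid word), `burauTrace w` (the trace of
the reduced Burau matrix of the `3`-braid word `w`, a Laurent polynomial in `t = A^{-4} = T (-4)`), `slz`
(the Burau matrices of the letters at `t = -1`, elements of `SL₂(ℤ)`).

The normalised bracket of a knot-type knotoid (a knotoid of height `0`) is the Jones polynomial of a
knot, so that all its exponents are divisible by `4`.  Hence a knotoid with an exponent which is not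
divisible by `4` is proper (its height is positive).
-/

set_option autoImplicit false

namespace Pool.Agent.Results.MP_79b4ff_gt.ProperKnotoidsCongruentToOne

open LaurentPolynomial Pool.Agent.H891R2.Jones Pool.Agent.W639.RB Pool.Agent.Y463.SK
  Pool.Agent.H832R3.TW Pool.Agent.Helper52_CV Pool.Agent.Helper52_KD

/-- Put `t = T (-4)`.  Let `N ≥ 1` and `k` be given, and let `W` be a finite list (which may be empty)
of `3`-braid words `w` with exponent sum `0` whose image in `SL₂(ℤ)` has a trace of absolute value at
least `3` (that is, `w` is pseudo-Anosov).  Let `M` be the product of `1 - t^N` and of the polynomials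
`S_{N-1}(tr w(t))`, `w ∈ W`, where `S_{N-1}` is the rescaled Chebyshev polynomial of the second kind
(`S_{N-1}(x + 1/x) = (x^N - x^{-N})/(x - x^{-1})`) and `tr w(t)` is the trace of the reduced Burau
matrix.  There are pure `4`-braid words `u 0, u 1, u 2, …` such that the diagrams
`K_i = dia snail (σ_2 σ_1 u i)` are diagrams of knotoids, each of them a single interval, and

* the normalised bracket of `K_i` has an exponent which is not divisible by `4` (so `K_i` is a proper
  knotoid, in particular it is nontrivial);
* the normalised bracket of `K_i` is congruent to `1`, the value of the trivial knotoid, modulo `M^k`,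
  and is mapped to `1` by every homomorphism to a commutative ring with at most `N` elements;
* the normalised brackets of the `K_i` are pairwise different. -/
theorem result (N k : ℕ) (hN : 1 ≤ N) (W : List (List (Letter 3)))
    (hW : ∀ w ∈ W, expSum w = 0 ∧ 3 ≤ |((w.map slz).prod).trace|) :
    ∃ u : ℕ → List (Letter 4),
    (∀ i, IsPure (u i)) ∧
    (∀ i, IsKnotoid (dia snail ([(true, 2), (true, 1)] ++ u i)) ∧
      (∀ x y, (permW ([(true, 2), (true, 1)] ++ u i) * Equiv.swap 0 1).SameCycle x y) ∧
      (∃ n : ℤ, ¬ ((4 : ℤ) ∣ n) ∧
        (dia snail ([(true, 2), (true, 1)] ++ u i)).fPoly.coeff n ≠ 0) ∧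
      ((1 - T (-4) ^ N : ℤ[T;T⁻¹]) * (W.map fun w =>
        (Polynomial.Chebyshev.S ℤ[T;T⁻¹] ((N : ℤ) - 1)).eval (burauTrace w)).prod) ^ k ∣
          (dia snail ([(true, 2), (true, 1)] ++ u i)).fPoly - 1 ∧
      ∀ (R : Type) [CommRing R] [Finite R] (φ : ℤ[T;T⁻¹] →+* R), Nat.card R ≤ N →
        φ (dia snail ([(true, 2), (true, 1)] ++ u i)).fPoly = 1) ∧
    Function.Injective (fun i => (dia snail ([(true, 2), (true, 1)] ++ u i)).fPoly) :=
  Pool.Agent.Helper52_KD.main_kn2 N k hN W hW

end Pool.Agent.Results.MP_79b4ff_gt.ProperKnotoidsCongruentToOne
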